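import Mathlib
import Pool.Agent.Results.MP_03d093_al.SphereBall

set_option autoImplicit false

namespace Pool.Agent.Results.MP_bbfbdc_al.SphLower

open Pool.Agent.Results.MP_03d093_al.SphereBall

/-- The number of letters `A` in a word. -/
def cA : List Lt → ℕ
  | [] => 0
  | .A :: w => cA w + 1
  | .B :: w => cA w
  | .C :: w => cA w
  | .D :: w => cA w

/-- No two adjacent letters `A`. -/
def NoAA (w : List Lt) : Prop := ∀ u v : List Lt, w ≠ u ++ ([Lt.A, Lt.A] ++ v)

theorem NoAA.tail {s : Lt} {w : List Lt} (h : NoAA (s :: w)) : NoAA w := by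
  intro u v huv
  exact h (s :: u) v (by rw [huv]; rfl)

theorem cA_le (w : List Lt) (h : NoAA w) :
    2 * cA w ≤ w.length + 1 ∧ (∀ s v, w = s :: v → s ≠ Lt.A → 2 * cA w ≤ w.length) := by
  induction w with
  | nil => simp [cA]
  | cons s w ih =>
    have ih' := ih h.tail
    have key : s ≠ Lt.A → 2 * cA (s :: w) ≤ (s :: w).length := by
      intro hs
      have : cA (s :: w) = cA w := by cases s <;> simp_all [cA]
      rw [this]
      simp only [List.length_cons]
      exact ih'.1
    constructor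
    · by_cases hs : s = Lt.A
      · subst hs
        cases w with
        | nil => simp [cA]
        | cons t v =>
          have ht : t ≠ Lt.A := by
            rintro rfl
            exact h [] v rfl
          have := ih'.2 t v rfl ht
          simp only [cA, List.length_cons] at this ⊢
          omega
      · have := key hs
        omega
    · intro t v htv ht
      have : s = t := by
        have := List.cons.inj htv
        exact this.1
      subst this
      exact key ht

theorem sig_length_eq (w : List Lt) : (sig w).length = w.length + 2 * cA w := by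
  induction w with
  | nil => simp [sig, cA]
  | cons s w ih =>
    have hs : sig (s :: w) = sg s ++ sig w := rfl
    rw [hs, List.length_append, ih]
    cases s <;> simp [sg, cA] <;> omega

/-- A geodesic word has no two adjacent letters `A`. -/
theorem geod_noAA (w : List Lt) (hw : w.length = len (evG w)) : NoAA w := by
  intro u v huv
  have h1 : evG w = evG (u ++ v) := by
    apply Subtype.ext
    show ev w = ev (u ++ v)
    rw [huv, ev_append, ev_append, ev_append]
    have : ev [Lt.A, Lt.A] = 1 := by simp [ev_cons, gen, aa]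
    rw [this, one_mul]
  have h2 := len_le (u ++ v)
  rw [← h1, ← hw, huv] at h2
  simp only [List.length_append, List.length_cons, List.length_nil] at h2
  omega

theorem sig_geod (w : List Lt) (hw : w.length = len (evG w)) :
    (sig w).length ≤ 2 * w.length + 1 := by
  rw [sig_length_eq]
  have := (cA_le w (geod_noAA w hw)).1
  omega

/-- The sharp inequality `γ(n)² ≤ K γ(4 n + 4)`. -/
theorem ball_sq : ∃ K : ℕ, 0 < K ∧ ∀ n : ℕ, ball n ^ 2 ≤ ball (4 * n + 4) * K := by
  have : Finite DD := DD_finite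
  have : Nonempty DD := ⟨⟨1, by simp [DD]⟩⟩
  refine ⟨Nat.card (DD × DD), Nat.card_pos, ?_⟩
  intro n
  choose W hW1 hW2 using exists_geod
  have hW3 : ∀ g, (sig (W g)).length ≤ 2 * (W g).length + 1 := by
    intro g
    apply sig_geod
    rw [hW2, hW1]
  let w : G → G → List Lt := fun g h => sig (W g) ++ [.A] ++ sig (W h) ++ [.A]
  have hw : ∀ g h : G, len g ≤ n → len h ≤ n → (w g h).length ≤ 4 * n + 4 := by
    intro g h hg hh
    have h2 := hW3 g
    have h3 := hW3 h
    have h4 : (w g h).length = (sig (W g)).length + 1 + (sig (W h)).length + 1 := by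
      simp only [w, List.length_append, List.length_singleton]
    rw [hW1] at h2 h3
    omega
  have hevw : ∀ g h : G, Sec (ev (w g h)) (tau (W g) * ev (W h)) (ev (W g) * tau (W h)) := by
    intro g h
    have := sec_pair (W g) (W h)
    have e : ev (w g h) = ev (sig (W g) ++ [.A] ++ sig (W h)) * a := by
      simp only [w]
      rw [ev_append _ [Lt.A]]
      simp [gen]
    rw [e]
    exact this
  let F : {g : G // len g ≤ n} × {g : G // len g ≤ n} →
      {g : G // len g ≤ 4 * n + 4} × (DD × DD) :=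
    fun p => (⟨evG (w p.1 p.2), (len_le _).trans (hw _ _ p.1.2 p.2.2)⟩,
      (⟨tau (W p.1), tau_mem _⟩, ⟨tau (W p.2), tau_mem _⟩))
  have hF : Function.Injective F := by
    rintro ⟨g, h⟩ ⟨g', h'⟩ hE
    simp only [F, Prod.mk.injEq, Subtype.mk.injEq] at hE
    obtain ⟨e1, e4, e5⟩ := hE
    have e6 : ev (w g h) = ev (w g' h') := congrArg Subtype.val e1
    have s3 := hevw g h
    rw [e6] at s3
    obtain ⟨e7, e8⟩ := s3.unique (hevw g' h')
    rw [e4] at e7
    rw [e5] at e8
    have e9 := mul_left_cancel e7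
    have e10 := mul_right_cancel e8
    have e11 : evG (W g) = evG (W g') := Subtype.ext e10
    have e12 : evG (W h) = evG (W h') := Subtype.ext e9
    rw [hW2, hW2] at e11 e12
    exact Prod.ext (Subtype.ext e11) (Subtype.ext e12)
  have := Nat.card_le_card_of_injective F hF
  rw [Nat.card_prod, Nat.card_prod] at this
  unfold ball
  rw [sq]
  exact this

/-- Iterating the inequality: balls of radius `4^k (m + 2)` have at least `K e^(2^k)` elements. -/
theorem ball_iter : ∃ m : ℕ, ∀ k : ℕ, Real.exp (2 ^ k) ≤ (ball (4 ^ k * (m + 2) - 2) : ℝ) := by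
  obtain ⟨K, hK, hsq⟩ := ball_sq
  obtain ⟨m, hm⟩ := ball_unbounded (3 * K)
  have hK1 : (1 : ℝ) ≤ K := by exact_mod_cast hK
  have hKp : (0 : ℝ) < K := by linarith
  refine ⟨m, ?_⟩
  have main : ∀ k : ℕ, (K : ℝ) * Real.exp (2 ^ k) ≤ (ball (4 ^ k * (m + 2) - 2) : ℝ) := by
    intro k
    induction k with
    | zero =>
      have h1 : 4 ^ 0 * (m + 2) - 2 = m := by omega
      rw [h1]
      have h2 : Real.exp (2 ^ 0) ≤ 3 := by
        have := Real.exp_one_lt_three
        simpa using this.le
      have h3 : ((3 * K : ℕ) : ℝ) ≤ (ball m : ℝ) := by exact_mod_cast hm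
      push_cast at h3
      nlinarith
    | succ k ih =>
      have h1 : 4 * (4 ^ k * (m + 2) - 2) + 4 ≤ 4 ^ (k + 1) * (m + 2) - 2 := by
        have h4 : 1 ≤ 4 ^ k := Nat.one_le_pow _ _ (by norm_num)
        have h5 : 2 ≤ 4 ^ k * (m + 2) := by nlinarith
        have h6 : 4 ^ (k + 1) * (m + 2) = 4 * (4 ^ k * (m + 2)) := by ring
        omega
      have h2 := hsq (4 ^ k * (m + 2) - 2)
      have h3 := ball_mono h1
      have h4 : (ball (4 ^ k * (m + 2) - 2) : ℝ) ^ 2 ≤ (ball (4 ^ (k + 1) * (m + 2) - 2) : ℝ) * K := by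
        have : ball (4 ^ k * (m + 2) - 2) ^ 2 ≤ ball (4 ^ (k + 1) * (m + 2) - 2) * K :=
          h2.trans (Nat.mul_le_mul_right _ h3)
        exact_mod_cast this
      have h5 : ((K : ℝ) * Real.exp (2 ^ k)) ^ 2 ≤ (ball (4 ^ k * (m + 2) - 2) : ℝ) ^ 2 := by
        apply pow_le_pow_left₀ _ ih
        positivity
      have h6 : Real.exp (2 ^ (k + 1)) = Real.exp (2 ^ k) ^ 2 := by
        rw [← Real.exp_nat_mul]
        congr 1
        rw [pow_succ]
        push_cast
        ring
      have h7 : (K : ℝ) * ((K : ℝ) * Real.exp (2 ^ (k + 1))) ≤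
          K * (ball (4 ^ (k + 1) * (m + 2) - 2) : ℝ) := by
        rw [h6]
        calc (K : ℝ) * ((K : ℝ) * Real.exp (2 ^ k) ^ 2) = ((K : ℝ) * Real.exp (2 ^ k)) ^ 2 := by ring
          _ ≤ _ := h5
          _ ≤ _ := h4
          _ = _ := by ring
      exact le_of_mul_le_mul_left h7 hKp
  intro k
  refine le_trans ?_ (main k)
  have := Real.exp_pos ((2 : ℝ) ^ k)
  nlinarith

/-- The ball growth is at least `e^√n` (Grigorchuk). -/
theorem ball_lower : ∃ C : ℕ, 1 ≤ C ∧ ∀ n : ℕ, Real.exp (Real.sqrt n) ≤ (ball (C * n) : ℝ) := by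
  obtain ⟨m, hm⟩ := ball_iter
  refine ⟨4 * (m + 2), by omega, ?_⟩
  intro n
  rcases Nat.eq_zero_or_pos n with h0 | h0
  · subst h0
    simp only [CharP.cast_eq_zero, Real.sqrt_zero, Real.exp_zero, mul_zero, Nat.one_le_cast]
    unfold ball
    rw [Nat.succ_le_iff, Nat.card_pos_iff]
    refine ⟨⟨⟨1, ?_⟩⟩, inferInstance⟩
    have := len_le []
    have h1 : evG [] = 1 := Subtype.ext ev_nil
    rw [h1] at this
    exact this
  · obtain ⟨k, hk1, hk2⟩ : ∃ k : ℕ, n ≤ 4 ^ k ∧ 4 ^ k ≤ 4 * n := by
      have hex : ∃ k, n ≤ 4 ^ k := ⟨n, (Nat.lt_pow_self (by norm_num)).le⟩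
      refine ⟨Nat.find hex, Nat.find_spec hex, ?_⟩
      rcases Nat.eq_zero_or_pos (Nat.find hex) with h | h
      · rw [h]
        omega
      · have h2 := Nat.find_min hex (m := Nat.find hex - 1) (by omega)
        have h3 : 4 ^ (Nat.find hex) = 4 * 4 ^ (Nat.find hex - 1) := by
          rw [← pow_succ']
          congr 1
          omega
        omega
    have h1 : Real.sqrt n ≤ 2 ^ k := by
      rw [show ((2 : ℝ) ^ k) = Real.sqrt (4 ^ k) by
        rw [show (4 : ℝ) ^ k = (2 ^ k) ^ 2 by rw [← pow_mul, mul_comm, pow_mul]; norm_num]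
        rw [Real.sqrt_sq (by positivity)]]
      apply Real.sqrt_le_sqrt
      exact_mod_cast hk1
    have h2 := hm k
    have h3 : ball (4 ^ k * (m + 2) - 2) ≤ ball (4 * (m + 2) * n) := by
      apply ball_mono
      have : 4 ^ k * (m + 2) ≤ 4 * n * (m + 2) := Nat.mul_le_mul_right _ hk2
      have h4 : 4 * n * (m + 2) = 4 * (m + 2) * n := by ring
      omega
    calc Real.exp (Real.sqrt n) ≤ Real.exp (2 ^ k) := Real.exp_le_exp.2 h1
      _ ≤ _ := h2
      _ ≤ _ := by exact_mod_cast h3

/-- Every sphere is nonempty. -/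
theorem one_le_sph (N : ℕ) : 1 ≤ sph N := by
  obtain ⟨y, hy, -⟩ := hit [] N (by simp [sig])
  unfold sph
  rw [Nat.succ_le_iff, Nat.card_pos_iff]
  exact ⟨⟨⟨y, hy⟩⟩, inferInstance⟩

/-- **Full answer to Q1.** The spherical growth function of the first Grigorchuk group (with
respect to the canonical generators) satisfies `e^(n^α) ⪯ γ^sph(n)` for some `α > 0`: one can take
`α = 1/2`. Moreover the bound `e^(n^α) ≤ γ^sph(N)` holds for all radii `N ≥ C n`, not only
for `N = C n`. -/
theorem result : ∃ α : ℝ, 0 < α ∧ α = 1 / 2 ∧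
    ∃ C : ℕ, 0 < C ∧ ∀ n N : ℕ, C * n ≤ N → Real.exp ((n : ℝ) ^ α) ≤ (sph N : ℝ) := by
  obtain ⟨C, hC, hball⟩ := ball_lower
  obtain ⟨C', hC', hsph⟩ := ball_le_sph
  refine ⟨1 / 2, by norm_num, rfl, C' * C, by positivity, ?_⟩
  intro n N hN
  rw [← Real.sqrt_eq_rpow]
  rcases Nat.eq_zero_or_pos n with h0 | h0
  · subst h0
    simp only [CharP.cast_eq_zero, Real.sqrt_zero, Real.exp_zero, Nat.one_le_cast]
    exact one_le_sph N
  · refine (hball n).trans ?_
    have h1 : 1 ≤ C * n := Nat.mul_pos hC h0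
    have h2 := hsph (C * n) h1 N (by rw [← mul_assoc]; exact hN)
    exact_mod_cast h2

end Pool.Agent.Results.MP_bbfbdc_al.SphLower
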